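import Mathlib

set_option autoImplicit false
set_option linter.unusedSectionVars false

/-!
# Split symmetric matrices
-/

namespace Pool.Agent.Helper27.PUR

open Module Submodule Matrix

variable {F : Type*} [Field F]

/-- `G` is metabolic: there is a totally isotropic subspace of at least half the dimension. -/
def Mtb {ι : Type*} [Fintype ι] (G : Matrix ι ι F) : Prop :=
  ∃ L : Submodule F (ι → F), Fintype.card ι ≤ 2 * finrank F L ∧
    ∀ u ∈ L, ∀ v ∈ L, u ⬝ᵥ G *ᵥ v = 0

section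

variable {V W : Type*} [AddCommGroup V] [Module F V] [AddCommGroup W] [Module F W]

theorem finrank_map_inj (f : V →ₗ[F] W) (L : Submodule F V)
    (hf : ∀ x ∈ L, f x = 0 → x = 0) : finrank F (L.map f) = finrank F L := by
  have hinj : Function.Injective (f.domRestrict L) := by
    rw [← LinearMap.ker_eq_bot, eq_bot_iff]
    intro x hx
    have := hf x.1 x.2 (by simpa using hx)
    exact (Submodule.mem_bot F).mpr (Subtype.ext this)
  have h1 : LinearMap.range (f.domRestrict L) = L.map f := by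
    ext x; simp
  rw [← h1]
  exact LinearMap.finrank_range_of_inj hinj

theorem finrank_map_add [FiniteDimensional F V] (f : V →ₗ[F] W) (L : Submodule F V) :
    finrank F (L.map f) + finrank F (L ⊓ LinearMap.ker f : Submodule F V) = finrank F L := by
  have h := LinearMap.finrank_range_add_finrank_ker (f.domRestrict L)
  have h1 : LinearMap.range (f.domRestrict L) = L.map f := by
    ext x; simp
  have h3 : (LinearMap.ker (f.domRestrict L)).map L.subtype = L ⊓ LinearMap.ker f := by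
    ext x
    simp only [mem_map, LinearMap.mem_ker, LinearMap.domRestrict_apply, coe_subtype, mem_inf]
    constructor
    · rintro ⟨y, hy, rfl⟩; exact ⟨y.2, hy⟩
    · rintro ⟨h1, h2⟩; exact ⟨⟨x, h1⟩, h2, rfl⟩
  have h2 : finrank F (LinearMap.ker (f.domRestrict L)) =
      finrank F (L ⊓ LinearMap.ker f : Submodule F V) := by
    rw [← h3]
    exact (finrank_map_inj L.subtype _ (fun x _ h => by simpa using h)).symm
  rw [h1, h2] at h
  exact h

end

section

variable {ι κ : Type*} [Fintype ι] [Fintype κ] [DecidableEq ι] [DecidableEq κ]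

/-- two families of vectors orthogonal for the dot product -/
theorem finrank_dot (E D : Submodule F (κ → F)) (h : ∀ a ∈ E, ∀ b ∈ D, a ⬝ᵥ b = 0) :
    finrank F E + finrank F D ≤ Fintype.card κ := by
  let φ : (κ → F) →ₗ[F] Module.Dual F (κ → F) := dotProductBilin F F
  have hφ : ∀ a, φ a = 0 → a = 0 := by
    intro a ha
    ext i
    have := congrArg (fun g => g (Pi.single i 1)) ha
    simpa [φ] using this
  have h1 : E.map φ ≤ D.dualAnnihilator := by
    rintro _ ⟨a, ha, rfl⟩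
    rw [mem_dualAnnihilator]
    intro b hb
    exact h a ha b hb
  have h2 := Subspace.finrank_add_finrank_dualAnnihilator_eq D
  have h3 := Submodule.finrank_mono h1
  rw [finrank_map_inj φ E (fun x _ hx => hφ x hx)] at h3
  have h4 : finrank F (κ → F) = Fintype.card κ := finrank_fintype_fun_eq_card F
  omega

omit [DecidableEq ι] [DecidableEq κ] in
theorem dot_congr {R : Type*} [CommRing R] (G : Matrix ι ι R) (P : Matrix ι κ R) (u v : κ → R) :
    u ⬝ᵥ (Pᵀ * G * P) *ᵥ v = (P *ᵥ u) ⬝ᵥ G *ᵥ (P *ᵥ v) := by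
  rw [← mulVec_mulVec, ← mulVec_mulVec, dotProduct_mulVec u, vecMul_transpose]

omit [DecidableEq ι] [DecidableEq κ] in
theorem Mtb.congr {G : Matrix ι ι F} {P : Matrix ι κ F} (hP : ∀ v, P *ᵥ v = 0 → v = 0)
    (hcard : Fintype.card ι ≤ Fintype.card κ) (h : Mtb (Pᵀ * G * P)) : Mtb G := by
  obtain ⟨L, h1, h2⟩ := h
  refine ⟨L.map P.mulVecLin, ?_, ?_⟩
  · rw [finrank_map_inj _ _ (fun x _ hx => hP x hx)]
    exact hcard.trans h1
  · rintro _ ⟨u, hu, rfl⟩ _ ⟨v, hv, rfl⟩
    rw [mulVecLin_apply, mulVecLin_apply, ← dot_congr]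
    exact h2 u hu v hv

/-- congruence by an invertible square matrix -/
theorem Mtb.of_congr {G : Matrix ι ι F} {P : Matrix ι ι F} (hP : IsUnit P.det)
    (h : Mtb (Pᵀ * G * P)) : Mtb G := by
  refine Mtb.congr (P := P) (fun v hv => ?_) le_rfl h
  have : P⁻¹ *ᵥ (P *ᵥ v) = v := by
    rw [mulVec_mulVec, nonsing_inv_mul P hP, one_mulVec]
  rw [← this, hv, mulVec_zero]

theorem Mtb.congr' {G : Matrix ι ι F} {P : Matrix ι ι F} (hP : IsUnit P.det) (h : Mtb G) :
    Mtb (Pᵀ * G * P) := by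
  have hP' : IsUnit (P⁻¹).det := by
    rw [det_nonsing_inv]; exact hP.ringInverse
  refine Mtb.of_congr (P := P⁻¹) hP' ?_
  have h1 : P * P⁻¹ = 1 := mul_nonsing_inv P hP
  have h2 : (P⁻¹)ᵀ * Pᵀ = 1 := by rw [← transpose_mul, h1, transpose_one]
  have : (P⁻¹)ᵀ * (Pᵀ * G * P) * P⁻¹ = G := by
    rw [← Matrix.mul_assoc, ← Matrix.mul_assoc, h2, Matrix.one_mul, Matrix.mul_assoc, h1,
      Matrix.mul_one]
  rwa [this]

/-- a hyperbolic summand can be cancelled -/
theorem Mtb.cancel {G : Matrix ι ι F}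
    (h : Mtb (fromBlocks G 0 0 (fromBlocks 0 1 1 0 : Matrix (κ ⊕ κ) (κ ⊕ κ) F))) :
    Mtb G := by
  obtain ⟨L, h1, h2⟩ := h
  let pι : (ι ⊕ (κ ⊕ κ) → F) →ₗ[F] (ι → F) := LinearMap.funLeft F F Sum.inl
  let pa : (ι ⊕ (κ ⊕ κ) → F) →ₗ[F] (κ → F) := LinearMap.funLeft F F (Sum.inr ∘ Sum.inl)
  let pb : (ι ⊕ (κ ⊕ κ) → F) →ₗ[F] (κ → F) := LinearMap.funLeft F F (Sum.inr ∘ Sum.inr)
  have hpι : ∀ x i, pι x i = x (Sum.inl i) := fun _ _ => rfl
  have hpa : ∀ x i, pa x i = x (Sum.inr (Sum.inl i)) := fun _ _ => rfl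
  have hpb : ∀ x i, pb x i = x (Sum.inr (Sum.inr i)) := fun _ _ => rfl
  have hform : ∀ x y, x ⬝ᵥ (fromBlocks G 0 0 (fromBlocks 0 1 1 0 :
      Matrix (κ ⊕ κ) (κ ⊕ κ) F)) *ᵥ y = pι x ⬝ᵥ G *ᵥ pι y + (pa x ⬝ᵥ pb y + pb x ⬝ᵥ pa y) := by
    intro x y
    have e1 : ∀ z : ι ⊕ (κ ⊕ κ) → F, z = Sum.elim (pι z) (Sum.elim (pa z) (pb z)) := by
      intro z; ext i; rcases i with i | i | i <;> rfl
    conv_lhs => rw [e1 x, e1 y]
    rw [fromBlocks_mulVec, fromBlocks_mulVec]
    simp only [Sum.elim_comp_inl, Sum.elim_comp_inr, sumElim_dotProduct_sumElim, zero_mulVec,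
      one_mulVec, add_zero, zero_add]
  set K1 := L ⊓ LinearMap.ker pb with hK1
  have e1 : finrank F (L.map pb) + finrank F K1 = finrank F L := finrank_map_add pb L
  have e2 := finrank_map_add pι K1
  set K2 := K1 ⊓ LinearMap.ker pι with hK2
  have e3 : finrank F (K2.map pa) = finrank F K2 := by
    apply finrank_map_inj
    intro x hx hxa
    have hb : pb x = 0 := hx.1.2
    have hi : pι x = 0 := hx.2
    ext i
    rcases i with i | i | i
    · exact congrFun hi i
    · exact congrFun hxa i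
    · exact congrFun hb i
  have e4 : finrank F (K2.map pa) + finrank F (L.map pb) ≤ Fintype.card κ := by
    apply finrank_dot
    rintro _ ⟨x, hx, rfl⟩ _ ⟨y, hy, rfl⟩
    have hb : pb x = 0 := hx.1.2
    have hi : pι x = 0 := hx.2
    have := h2 x hx.1.1 y hy
    rw [hform, hb, hi] at this
    simpa using this
  refine ⟨K1.map pι, ?_, ?_⟩
  · rw [Fintype.card_sum, Fintype.card_sum] at h1
    omega
  · rintro _ ⟨x, hx, rfl⟩ _ ⟨y, hy, rfl⟩
    have hbx : pb x = 0 := hx.2
    have hby : pb y = 0 := hy.2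
    have := h2 x hx.1 y hy.1
    rw [hform, hbx, hby] at this
    simpa using this

/-- determinant of the hyperbolic matrix -/
theorem det_hyp {R : Type*} [CommRing R] {κ : Type*} [Fintype κ] [DecidableEq κ] :
    (fromBlocks 0 1 1 0 : Matrix (κ ⊕ κ) (κ ⊕ κ) R).det = (-1) ^ Fintype.card κ := by
  have h : (fromBlocks 1 1 0 1 : Matrix (κ ⊕ κ) (κ ⊕ κ) R) * fromBlocks 0 1 1 0 =
      fromBlocks 1 1 1 0 := by
    rw [fromBlocks_multiply]; simp
  have h2 := congrArg det h
  rw [det_mul, det_fromBlocks_zero₂₁, det_one, one_mul, one_mul, det_fromBlocks_one₁₁] at h2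
  rw [h2, Matrix.one_mul, zero_sub, det_neg, det_one, mul_one]

end

end Pool.Agent.Helper27.PUR
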