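import Pool.Agent.Helper27.PUR.Mtb

set_option autoImplicit false
set_option linter.unusedSectionVars false

/-!
# Symmetric matrices over a field over which ternary forms are isotropic
-/

namespace Pool.Agent.Helper27.PUR

open Module Matrix

/-- every ternary quadratic form is isotropic -/
def Tern (k : Type*) [Field k] : Prop :=
  ∀ G : Matrix (Fin 3) (Fin 3) k, G.IsSymm → ∃ v : Fin 3 → k, v ≠ 0 ∧ v ⬝ᵥ G *ᵥ v = 0

variable {K : Type*} [Field K]

section

variable {ι : Type*} [Fintype ι] [DecidableEq ι]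

theorem dot_symm {R : Type*} [CommRing R] (A : Matrix ι ι R) (hA : Aᵀ = A) (u v : ι → R) :
    u ⬝ᵥ A *ᵥ v = v ⬝ᵥ A *ᵥ u := by
  rw [dotProduct_mulVec, ← mulVec_transpose, hA, dotProduct_comm]

theorem exists_isotropic (hT : Tern K) (A : Matrix ι ι K) (hA : Aᵀ = A)
    (hcard : 3 ≤ Fintype.card ι) : ∃ v : ι → K, v ≠ 0 ∧ v ⬝ᵥ A *ᵥ v = 0 := by
  obtain ⟨g⟩ := Function.Embedding.nonempty_of_card_le (α := Fin 3) (β := ι) (by simpa using hcard)
  let P : Matrix ι (Fin 3) K := Matrix.of fun i j => if i = g j then 1 else 0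
  have hP : ∀ v : Fin 3 → K, ∀ j, (P *ᵥ v) (g j) = v j := by
    intro v j
    simp [P, mulVec, dotProduct, g.injective.eq_iff]
  obtain ⟨v, hv0, hv⟩ := hT (Pᵀ * A * P) (by
    unfold Matrix.IsSymm
    rw [transpose_mul, transpose_mul, transpose_transpose, hA, Matrix.mul_assoc])
  refine ⟨P *ᵥ v, ?_, ?_⟩
  · intro h
    apply hv0
    ext j
    rw [← hP v j, h]; rfl
  · rw [← dot_congr]; exact hv

/-- splitting off a hyperbolic plane -/
theorem exists_split (h2 : (2 : K) ≠ 0) (A : Matrix ι ι K) (hA : Aᵀ = A) (hu : IsUnit A.det)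
    (n : ℕ) (hcard : Fintype.card ι = n + 2) (e : ι → K) (he0 : e ≠ 0) (he : e ⬝ᵥ A *ᵥ e = 0) :
    ∃ (P : Matrix ι (Fin n ⊕ (Unit ⊕ Unit)) K) (A' : Matrix (Fin n) (Fin n) K),
      (∀ v, P *ᵥ v = 0 → v = 0) ∧ A'ᵀ = A' ∧
      Pᵀ * A * P = fromBlocks A' 0 0 (fromBlocks 0 1 1 0) := by
  have hAe : A *ᵥ e ≠ 0 := by
    intro h
    apply he0
    rw [← one_mulVec e, ← nonsing_inv_mul A hu, ← mulVec_mulVec, h, mulVec_zero]
  obtain ⟨i0, hi0⟩ := Function.ne_iff.mp hAe
  let f0 : ι → K := ((A *ᵥ e) i0)⁻¹ • Pi.single i0 1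
  have hf0 : f0 ⬝ᵥ A *ᵥ e = 1 := by
    simp only [f0, smul_dotProduct, single_dotProduct, one_mul, smul_eq_mul]
    exact inv_mul_cancel₀ hi0
  let c := f0 ⬝ᵥ A *ᵥ f0
  let f : ι → K := f0 - (c / 2) • e
  have hfe : f ⬝ᵥ A *ᵥ e = 1 := by
    simp only [f, sub_dotProduct, smul_dotProduct, hf0, he, smul_zero, sub_zero]
  have hef : e ⬝ᵥ A *ᵥ f = 1 := by rw [dot_symm A hA]; exact hfe
  have hff : f ⬝ᵥ A *ᵥ f = 0 := by
    have h1 : e ⬝ᵥ A *ᵥ f0 = 1 := by rw [dot_symm A hA]; exact hf0
    have : f ⬝ᵥ A *ᵥ f = c - c / 2 - c / 2 := by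
      simp only [f, sub_dotProduct, smul_dotProduct, mulVec_sub, mulVec_smul, dotProduct_sub,
        dotProduct_smul, hf0, he, h1, smul_eq_mul, mul_zero, mul_one, sub_zero]
      simp only [c]
    rw [this]; field_simp; ring
  let φ : (ι → K) →ₗ[K] (Fin 2 → K) := (Matrix.of ![e, f]).mulVecLin ∘ₗ A.mulVecLin
  have hφ0 : ∀ w, φ w 0 = e ⬝ᵥ A *ᵥ w := fun w => rfl
  have hφ1 : ∀ w, φ w 1 = f ⬝ᵥ A *ᵥ w := fun w => rfl
  have hφs : LinearMap.range φ = ⊤ := by
    rw [LinearMap.range_eq_top]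
    intro y
    refine ⟨y 0 • f + y 1 • e, ?_⟩
    ext i
    fin_cases i
    · change φ _ 0 = y 0
      rw [hφ0, mulVec_add, mulVec_smul, mulVec_smul, dotProduct_add, dotProduct_smul,
        dotProduct_smul, hef, he]
      simp
    · change φ _ 1 = y 1
      rw [hφ1, mulVec_add, mulVec_smul, mulVec_smul, dotProduct_add, dotProduct_smul,
        dotProduct_smul, hfe, hff]
      simp
  set W := LinearMap.ker φ with hW
  have hWdim : finrank K W = n := by
    have h1 := LinearMap.finrank_range_add_finrank_ker φ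
    rw [hφs, finrank_top, finrank_fintype_fun_eq_card, finrank_fintype_fun_eq_card, hcard,
      Fintype.card_fin, ← hW] at h1
    omega
  let b : Basis (Fin n) K W := finBasisOfFinrankEq K W hWdim
  have hbe : ∀ i, e ⬝ᵥ A *ᵥ (b i : ι → K) = 0 := by
    intro i
    rw [← hφ0, LinearMap.mem_ker.mp (b i).2]; rfl
  have hbf : ∀ i, f ⬝ᵥ A *ᵥ (b i : ι → K) = 0 := by
    intro i
    rw [← hφ1, LinearMap.mem_ker.mp (b i).2]; rfl
  let cols : Fin n ⊕ (Unit ⊕ Unit) → (ι → K) :=
    Sum.elim (fun i => (b i : ι → K)) (Sum.elim (fun _ => e) (fun _ => f))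
  let P : Matrix ι (Fin n ⊕ (Unit ⊕ Unit)) K := (Matrix.of cols)ᵀ
  have hPmul : ∀ v, P *ᵥ v = ∑ j, v j • cols j := by
    intro v
    ext i
    rw [Finset.sum_apply]
    simp only [P, mulVec, dotProduct, transpose_apply, Matrix.of_apply, Pi.smul_apply, smul_eq_mul]
    exact Finset.sum_congr rfl fun j _ => mul_comm _ _
  have hGram : ∀ i j, (Pᵀ * A * P) i j = cols i ⬝ᵥ A *ᵥ cols j := by
    intro i j
    rw [Matrix.mul_assoc]
    rfl
  let A' : Matrix (Fin n) (Fin n) K := Matrix.of fun i j => (b i : ι → K) ⬝ᵥ A *ᵥ (b j : ι → K)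
  refine ⟨P, A', ?_, ?_, ?_⟩
  · intro v hv
    rw [hPmul, Fintype.sum_sum_type, Fintype.sum_sum_type] at hv
    simp only [cols, Sum.elim_inl, Sum.elim_inr, Finset.univ_unique, Finset.sum_singleton] at hv
    set s : ι → K := ∑ i, v (Sum.inl i) • (b i : ι → K) with hs
    have hsW : s ∈ W := Submodule.sum_mem _ fun i _ => Submodule.smul_mem _ _ (b i).2
    have hse : e ⬝ᵥ A *ᵥ s = 0 := by rw [← hφ0, LinearMap.mem_ker.mp hsW]; rfl
    have hsf : f ⬝ᵥ A *ᵥ s = 0 := by rw [← hφ1, LinearMap.mem_ker.mp hsW]; rfl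
    have h3 := congrArg (fun w => e ⬝ᵥ A *ᵥ w) hv
    have h4 := congrArg (fun w => f ⬝ᵥ A *ᵥ w) hv
    simp only [mulVec_add, mulVec_smul, dotProduct_add, dotProduct_smul, hse, hsf, he, hef, hfe,
      hff, mulVec_zero, dotProduct_zero, smul_eq_mul, mul_zero, mul_one, zero_add, add_zero]
      at h3 h4
    rw [h3, h4, zero_smul, zero_smul, add_zero, add_zero] at hv
    have h5 : ∀ i, v (Sum.inl i) = 0 := by
      have h6 : ∑ i, v (Sum.inl i) • b i = 0 := by
        apply Subtype.ext
        rw [Submodule.coe_sum]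
        simpa using hv
      exact fun i => linearIndependent_iff'.mp b.linearIndependent Finset.univ _ h6 i
        (Finset.mem_univ i)
    ext i
    rcases i with i | i | i
    · exact h5 i
    · exact h4
    · exact h3
  · ext i j
    simp only [A', transpose_apply, Matrix.of_apply]
    exact dot_symm A hA _ _
  · ext i j
    rw [hGram]
    rcases i with i | i | i <;> rcases j with j | j | j
    · rfl
    · exact (dot_symm A hA _ _).trans (hbe i)
    · exact (dot_symm A hA _ _).trans (hbf i)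
    · exact hbe j
    · exact he
    · exact hef
    · exact hbf j
    · exact hfe
    · exact hff

/-- adding a hyperbolic part -/
theorem Mtb.add {κ : Type*} [Fintype κ] [DecidableEq κ] {A : Matrix ι ι K} (h : Mtb A) :
    Mtb (fromBlocks A 0 0 (fromBlocks 0 1 1 0 : Matrix (κ ⊕ κ) (κ ⊕ κ) K)) := by
  obtain ⟨L, h1, h2⟩ := h
  let f : L × (κ → K) →ₗ[K] (ι ⊕ (κ ⊕ κ) → K) :=
    { toFun := fun x => Sum.elim (x.1 : ι → K) (Sum.elim x.2 0)
      map_add' := fun x y => by
        ext i; rcases i with i | i | i <;> simp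
      map_smul' := fun c x => by
        ext i; rcases i with i | i | i <;> simp }
  have hf : ∀ x, f x = Sum.elim (x.1 : ι → K) (Sum.elim x.2 0) := fun _ => rfl
  have hinj : Function.Injective f := by
    rw [← LinearMap.ker_eq_bot, eq_bot_iff]
    intro x hx
    rw [LinearMap.mem_ker, hf] at hx
    refine Prod.ext ?_ ?_
    · apply Subtype.ext
      ext i; exact congrFun hx (Sum.inl i)
    · ext i; exact congrFun hx (Sum.inr (Sum.inl i))
  refine ⟨LinearMap.range f, ?_, ?_⟩
  · rw [LinearMap.finrank_range_of_inj hinj, finrank_prod, finrank_fintype_fun_eq_card,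
      Fintype.card_sum, Fintype.card_sum]
    omega
  · rintro _ ⟨x, rfl⟩ _ ⟨y, rfl⟩
    rw [hf, hf, fromBlocks_mulVec, fromBlocks_mulVec]
    simp only [Sum.elim_comp_inl, Sum.elim_comp_inr, sumElim_dotProduct_sumElim, zero_mulVec,
      one_mulVec, add_zero, zero_add, mulVec_zero, dotProduct_zero, zero_dotProduct]
    exact h2 _ x.1.2 _ y.1.2

/-- the discriminant decides -/
theorem meta_of_disc (h2 : (2 : K) ≠ 0) (hT : Tern K) (m : ℕ) : ∀ (ι : Type) [Fintype ι]
    [DecidableEq ι] (A : Matrix ι ι K), Aᵀ = A → IsUnit A.det → Fintype.card ι = 2 * m →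
    IsSquare ((-1) ^ m * A.det) → Mtb A := by
  induction m with
  | zero =>
    intro ι _ _ A hA hu hcard hsq
    exact ⟨⊥, by rw [hcard]; simp, fun u hu v _ => by
      rw [(Submodule.mem_bot K).mp hu, zero_dotProduct]⟩
  | succ m ih =>
    intro ι _ _ A hA hu hcard hsq
    -- an isotropic vector
    have hiso : ∃ v : ι → K, v ≠ 0 ∧ v ⬝ᵥ A *ᵥ v = 0 := by
      rcases Nat.eq_zero_or_pos m with rfl | hm
      · -- binary forms
        let σ : Fin 2 ≃ ι := (Fintype.equivFinOfCardEq (by rw [hcard])).symm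
        have hdet : A.det = A (σ 0) (σ 0) * A (σ 1) (σ 1) - A (σ 0) (σ 1) * A (σ 1) (σ 0) := by
          rw [← det_submatrix_equiv_self σ A, det_fin_two]; rfl
        have hsym : A (σ 1) (σ 0) = A (σ 0) (σ 1) := congrFun (congrFun hA (σ 0)) (σ 1)
        obtain ⟨r, hr⟩ := hsq
        have hform : ∀ x y : K, ∀ v : ι → K, v = (fun i => ![x, y] (σ.symm i)) →
            v ⬝ᵥ A *ᵥ v = A (σ 0) (σ 0) * x ^ 2 + 2 * A (σ 0) (σ 1) * x * y +
              A (σ 1) (σ 1) * y ^ 2 := by
          rintro x y v rfl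
          simp only [dotProduct, mulVec]
          rw [← σ.sum_comp]
          simp only [← σ.sum_comp (fun i => A _ i * _), Fin.sum_univ_two, Equiv.symm_apply_apply,
            cons_val_zero, cons_val_one]
          rw [hsym]; ring
        by_cases ha : A (σ 0) (σ 0) = 0
        · refine ⟨fun i => ![1, 0] (σ.symm i), ?_, ?_⟩
          · intro h
            have := congrFun h (σ 0)
            simp at this
          · rw [hform 1 0 _ rfl, ha]; ring
        · refine ⟨fun i => ![-A (σ 0) (σ 1) + r, A (σ 0) (σ 0)] (σ.symm i), ?_, ?_⟩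
          · intro h
            have := congrFun h (σ 1)
            simp at this
            exact ha this
          · rw [hform _ _ _ rfl]
            rw [hdet, hsym] at hr
            linear_combination (-A (σ 0) (σ 0)) * hr
      · exact exists_isotropic hT A hA (by omega)
    obtain ⟨e, he0, he⟩ := hiso
    obtain ⟨P, A', hP, hA', hPA⟩ := exists_split h2 A hA hu (2 * m) (by omega) e he0 he
    have hcard' : Fintype.card ι = Fintype.card (Fin (2 * m) ⊕ (Unit ⊕ Unit)) := by
      rw [hcard]; simp; ring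
    let σ : ι ≃ Fin (2 * m) ⊕ (Unit ⊕ Unit) := Fintype.equivOfCardEq hcard'
    let P' : Matrix ι ι K := P.submatrix id σ
    have hP'v : ∀ v, P' *ᵥ v = P *ᵥ (v ∘ σ.symm) := by
      intro v
      ext i
      simp only [P', mulVec, dotProduct, submatrix_apply, id, Function.comp_apply]
      rw [← σ.sum_comp]
      simp
    have hP'u : IsUnit P'.det := by
      rw [← isUnit_iff_isUnit_det, ← mulVec_injective_iff_isUnit]
      intro v w hvw
      have h1 : P' *ᵥ (v - w) = 0 := by rw [mulVec_sub, sub_eq_zero]; exact hvw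
      rw [hP'v] at h1
      have h3 := hP _ h1
      ext i
      have := congrFun h3 (σ i)
      simp only [Function.comp_apply, Equiv.symm_apply_apply, Pi.sub_apply, Pi.zero_apply] at this
      exact sub_eq_zero.mp this
    have hdet : A.det * P'.det ^ 2 = - A'.det := by
      have h1 : P'ᵀ * A * P' = (Pᵀ * A * P).submatrix σ σ := by
        ext i j
        simp [P', Matrix.mul_apply, submatrix_apply]
      have h3 := congrArg det h1
      rw [det_mul, det_mul, det_transpose, det_submatrix_equiv_self, hPA, det_fromBlocks_zero₂₁,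
        det_hyp] at h3
      simp only [Fintype.card_unit, pow_one] at h3
      linear_combination h3
    have hA'u : IsUnit A'.det := by
      rw [isUnit_iff_ne_zero] at hu hP'u ⊢
      intro h
      rw [h, neg_zero] at hdet
      exact mul_ne_zero hu (pow_ne_zero 2 hP'u) hdet
    have hm := ih (Fin (2 * m)) A' hA' hA'u (by simp) (by
      obtain ⟨r, hr⟩ := hsq
      refine ⟨r * P'.det, ?_⟩
      rw [pow_succ] at hr
      linear_combination P'.det ^ 2 * hr + (-1) ^ m * hdet)
    have hm2 := hm.add (κ := Unit)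
    rw [← hPA] at hm2
    exact Mtb.congr hP hcard'.le hm2

end

end Pool.Agent.Helper27.PUR
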