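import Pool.Agent.Helper27.PUR.Mtb

set_option autoImplicit false
set_option linter.unusedSectionVars false

/-!
# Karoubi: a unimodular symmetric matrix over `K[X]` is stably constant
-/

namespace Pool.Agent.Helper27.PUR

open Module Matrix Polynomial

section nilp

variable {K : Type*} [Field K] {ι : Type*} [Fintype ι] [DecidableEq ι]

theorem nilp_of_unit (N : Matrix ι ι K) (h : IsUnit (1 + (X : K[X]) • N.map C).det) :
    IsNilpotent N := by
  set Q := (1 + (X : K[X]) • N.map C)⁻¹ with hQ
  have h1 : (1 + (X : K[X]) • N.map C) * Q = 1 := mul_nonsing_inv _ h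
  have h2 : Q = 1 - (X : K[X]) • (N.map C * Q) := by
    rw [add_mul, one_mul, smul_mul] at h1
    rw [← h1, add_sub_cancel_right]
  have hQe : ∀ i j, Q i j = (if i = j then 1 else 0) - X * ∑ k, C (N i k) * Q k j := by
    intro i j
    have := congrFun (congrFun h2 i) j
    rw [this, Matrix.sub_apply, Matrix.smul_apply, Matrix.one_apply, Matrix.mul_apply, smul_eq_mul]
    simp only [Matrix.map_apply]
  let Qc : ℕ → Matrix ι ι K := fun n => Matrix.of fun i j => (Q i j).coeff n
  have hQc : ∀ n i j, Qc n i j = (Q i j).coeff n := fun _ _ _ => rfl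
  have h0 : Qc 0 = 1 := by
    ext i j
    rw [hQc, hQe, coeff_sub, coeff_X_mul_zero, sub_zero, Matrix.one_apply]
    split_ifs <;> simp
  have hs : ∀ n, Qc (n + 1) = - N * Qc n := by
    intro n
    ext i j
    have h3 : (if i = j then (1 : K[X]) else 0).coeff (n + 1) = 0 := by
      split_ifs
      · rw [coeff_one]; simp
      · simp
    rw [hQc, hQe, coeff_sub, coeff_X_mul, h3, zero_sub, Matrix.neg_mul, Matrix.neg_apply,
      Matrix.mul_apply, finsetSum_coeff]
    simp only [hQc, coeff_C_mul]
  have hp : ∀ n, Qc n = (-N) ^ n := by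
    intro n
    induction n with
    | zero => rw [h0, pow_zero]
    | succ n ih => rw [hs, ih, pow_succ']
  let D := Finset.univ.sup fun ij : ι × ι => (Q ij.1 ij.2).natDegree
  have hD : Qc (D + 1) = 0 := by
    ext i j
    rw [hQc, Matrix.zero_apply]
    apply coeff_eq_zero_of_natDegree_lt
    have := Finset.le_sup (f := fun ij : ι × ι => (Q ij.1 ij.2).natDegree) (Finset.mem_univ (i, j))
    exact Nat.lt_succ_of_le this
  rw [hp] at hD
  have : IsNilpotent (-N) := ⟨_, hD⟩
  simpa using this

end nilp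

section sqrt

variable {R : Type*} [CommRing R] [Invertible (2 : R)] {ι : Type*} [Fintype ι] [DecidableEq ι]

/-- square root of `1 + N`, `N` nilpotent -/
theorem exists_sqrt (N A : Matrix ι ι R) (hN : IsNilpotent N) (hA : A * N = Nᵀ * A) :
    ∃ C : Matrix ι ι R, C * C = 1 + N ∧ A * C = Cᵀ * A := by
  obtain ⟨m, hm⟩ := hN
  let S := AdjoinRoot (X ^ m : R[X])
  let ν : S := AdjoinRoot.root _
  have hν : ν ^ m = 0 := by
    have := AdjoinRoot.eval₂_root (X ^ m : R[X])
    simpa using this
  let P : S[X] := X ^ 2 - C (1 + ν)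
  have hPev : aeval (1 : S) P = -ν := by simp [P]
  have hPd : aeval (1 : S) (derivative P) = 2 := by simp [P]; norm_num
  have h2 : IsUnit (2 : S) := by
    have := (isUnit_of_invertible (2 : R)).map (algebraMap R S)
    rwa [map_ofNat] at this
  obtain ⟨r, ⟨-, hr⟩, -⟩ := existsUnique_nilpotent_sub_and_aeval_eq_zero (P := P) (x := (1 : S))
    (by rw [hPev]; exact (IsNilpotent.neg ⟨m, hν⟩)) (by rw [hPd]; exact h2)
  have hr2 : r ^ 2 = 1 + ν := by
    have : r ^ 2 - (1 + ν) = 0 := by simpa [P] using hr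
    exact sub_eq_zero.mp this
  obtain ⟨p, rfl⟩ := AdjoinRoot.mk_surjective r
  have hdvd : (X ^ m : R[X]) ∣ p ^ 2 - (1 + X) := by
    rw [← AdjoinRoot.mk_eq_zero]
    simp only [map_sub, map_pow, map_add, map_one, AdjoinRoot.mk_X]
    rw [hr2]; simp [ν]
  obtain ⟨q, hq⟩ := hdvd
  refine ⟨aeval N p, ?_, ?_⟩
  · have := congrArg (aeval N) hq
    simp only [map_sub, map_pow, map_add, map_one, map_mul, aeval_X, hm, zero_mul] at this
    rw [← sq]
    exact sub_eq_zero.mp this
  · have hk : ∀ k : ℕ, A * N ^ k = (N ^ k)ᵀ * A := by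
      intro k
      induction k with
      | zero => simp
      | succ k ih =>
        rw [pow_succ, ← Matrix.mul_assoc, ih, Matrix.mul_assoc, hA, ← Matrix.mul_assoc,
          ← transpose_mul, ← pow_succ', ← pow_succ]
    have key : ∀ p : R[X], A * aeval N p = (aeval N p)ᵀ * A := by
      intro p
      induction p using Polynomial.induction_on' with
      | add p q hp hq => rw [map_add, Matrix.mul_add, hp, hq, transpose_add, Matrix.add_mul]
      | monomial n a =>
        rw [aeval_monomial, ← Algebra.smul_def, Matrix.mul_smul, hk, transpose_smul,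
          Matrix.smul_mul]
    exact key p

end sqrt

section base

variable {K : Type*} [Field K] {ι : Type*} [Fintype ι] [DecidableEq ι]

theorem linear_congr (h2 : (2 : K) ≠ 0) (A B : Matrix ι ι K) (hA : Aᵀ = A) (hB : Bᵀ = B)
    (h : IsUnit (A.map C + (X : K[X]) • B.map C).det) :
    IsUnit A.det ∧ ∃ Q : Matrix ι ι K[X], IsUnit Q.det ∧
      Qᵀ * A.map C * Q = A.map C + (X : K[X]) • B.map C := by
  have hAu : IsUnit A.det := by
    have h1 := h.map (evalRingHom (0 : K))
    have h3 : (A.map C + (X : K[X]) • B.map C).map (evalRingHom (0 : K)) = A := by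
      ext i j
      simp
    rw [RingHom.map_det, RingHom.mapMatrix_apply, h3] at h1
    exact h1
  refine ⟨hAu, ?_⟩
  set N := A⁻¹ * B with hN
  have hAN : A * N = B := by rw [hN, ← Matrix.mul_assoc, mul_nonsing_inv A hAu, Matrix.one_mul]
  have hG : A.map C + (X : K[X]) • B.map C = A.map C * (1 + (X : K[X]) • N.map C) := by
    rw [Matrix.mul_add, Matrix.mul_one, Matrix.mul_smul, ← Matrix.map_mul, hAN]
  have hNu : IsUnit (1 + (X : K[X]) • N.map C).det := by
    rw [hG, det_mul] at h
    exact isUnit_of_mul_isUnit_right h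
  have hNn := nilp_of_unit N hNu
  have hNn' : IsNilpotent ((X : K[X]) • N.map C) := by
    obtain ⟨m, hm⟩ := hNn
    refine ⟨m, ?_⟩
    rw [_root_.smul_pow, ← Matrix.map_pow, hm, Matrix.map_zero _ (map_zero C), smul_zero]
  have hinv : IsUnit (2 : K[X]) := by
    have := (isUnit_iff_ne_zero.mpr h2).map C
    rwa [map_ofNat] at this
  let := hinv.invertible
  obtain ⟨Q, hQ, hAQ⟩ := exists_sqrt ((X : K[X]) • N.map C) (A.map C) hNn' (by
    rw [Matrix.mul_smul, transpose_smul, Matrix.smul_mul, ← Matrix.map_mul, hAN,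
      ← Matrix.transpose_map, ← Matrix.map_mul]
    congr 2
    rw [← hA, ← transpose_mul, hAN, hB])
  refine ⟨Q, ?_, ?_⟩
  · have h3 : (Q * Q).det = (1 + (X : K[X]) • N.map C).det := by rw [hQ]
    rw [det_mul] at h3
    rw [← h3] at hNu
    exact isUnit_of_mul_isUnit_left hNu
  · rw [← hAQ, Matrix.mul_assoc, hQ, hG]

end base

section basechange

theorem iso_span {F : Type*} [Field F] {ι : Type*} [Fintype ι] (G : Matrix ι ι F)
    (s : Set (ι → F)) (h : ∀ u ∈ s, ∀ v ∈ s, u ⬝ᵥ G *ᵥ v = 0) :
    ∀ u ∈ Submodule.span F s, ∀ v ∈ Submodule.span F s, u ⬝ᵥ G *ᵥ v = 0 := by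
  intro u hu
  induction hu using Submodule.span_induction with
  | mem u hu =>
    intro v hv
    induction hv using Submodule.span_induction with
    | mem v hv => exact h u hu v hv
    | zero => simp
    | add x y _ _ hx hy => rw [mulVec_add, dotProduct_add, hx, hy, add_zero]
    | smul a x _ hx => rw [mulVec_smul, dotProduct_smul, hx, smul_zero]
  | zero => intro v _; simp
  | add x y _ _ hx hy => intro v hv; rw [add_dotProduct, hx v hv, hy v hv, add_zero]
  | smul a x _ hx => intro v hv; rw [smul_dotProduct, hx v hv, smul_zero]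

theorem Mtb.baseChange {K F : Type*} [Field K] [Field F] [Algebra K F] {ι : Type*} [Fintype ι]
    {A : Matrix ι ι K} (h : Mtb A) : Mtb (A.map (algebraMap K F)) := by
  obtain ⟨L, h1, h2⟩ := h
  let b := finBasis K L
  have hb : LinearIndependent K (fun i => (b i : ι → K)) :=
    b.linearIndependent.map' L.subtype (Submodule.ker_subtype L)
  have hb' := (linearIndependent_algebraMap_comp_iff (R := K) (S := F)
    (v := fun i => (b i : ι → K))).mpr hb
  refine ⟨Submodule.span F (Set.range fun i => algebraMap K F ∘ (b i : ι → K)), ?_, ?_⟩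
  · rw [finrank_span_eq_card hb', Fintype.card_fin]
    exact h1
  · apply iso_span
    rintro _ ⟨i, rfl⟩ _ ⟨j, rfl⟩
    have := h2 _ (b i).2 _ (b j).2
    have h3 := congrArg (algebraMap K F) this
    have h4 : (algebraMap K F : K → F) ∘ (A *ᵥ (b j : ι → K)) =
        A.map (algebraMap K F) *ᵥ ((algebraMap K F : K → F) ∘ (b j : ι → K)) := by
      ext l
      exact RingHom.map_mulVec (algebraMap K F) A _ l
    rw [map_zero, RingHom.map_dotProduct, h4] at h3
    exact h3

end basechange

section step

variable {K : Type*} [Field K] {F : Type*} [Field F] [Algebra K[X] F]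

theorem meta_linear [FaithfulSMul K[X] F] (h2 : (2 : K) ≠ 0) {ι : Type*} [Fintype ι] [DecidableEq ι]
    (G : Matrix ι ι K[X]) (hG : Gᵀ = G) (hu : IsUnit G.det) (hd : ∀ i j, (G i j).natDegree ≤ 1)
    (hA : ∀ A : Matrix ι ι K, Aᵀ = A → IsUnit A.det → A.det = eval 0 G.det → Mtb A) :
    Mtb (G.map (algebraMap K[X] F)) := by
  let A : Matrix ι ι K := Matrix.of fun i j => (G i j).coeff 0
  let B : Matrix ι ι K := Matrix.of fun i j => (G i j).coeff 1
  have hGe : ∀ i j, G i j = G j i := fun i j => congrFun (congrFun hG j) i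
  have hGAB : G = A.map C + (X : K[X]) • B.map C := by
    ext1 i j
    rw [Matrix.add_apply, Matrix.smul_apply, Matrix.map_apply, Matrix.map_apply, smul_eq_mul]
    have := (G i j).as_sum_range' 2 (Nat.lt_succ_of_le (hd i j))
    rw [this, Finset.sum_range_succ, Finset.sum_range_one]
    simp only [A, B, Matrix.of_apply, ← C_mul_X_pow_eq_monomial]
    rw [this]
    simp
    ring
  have hAs : Aᵀ = A := by ext i j; simp only [A, transpose_apply, Matrix.of_apply]; rw [hGe]
  have hBs : Bᵀ = B := by ext i j; simp only [B, transpose_apply, Matrix.of_apply]; rw [hGe]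
  obtain ⟨hAu, Q, hQu, hQ⟩ := linear_congr h2 A B hAs hBs (by rw [← hGAB]; exact hu)
  have hdetA : A.det = eval 0 G.det := by
    have h3 : G.map (evalRingHom (0 : K)) = A := by
      ext i j
      simp [A, coeff_zero_eq_eval_zero]
    rw [← h3, ← RingHom.mapMatrix_apply, ← RingHom.map_det, coe_evalRingHom]
  have hm := hA A hAs hAu hdetA
  let : Algebra K F := ((algebraMap K[X] F).comp C).toAlgebra
  have hmF := hm.baseChange (F := F)
  have hQF : IsUnit (Q.map (algebraMap K[X] F)).det := by
    rw [← RingHom.mapMatrix_apply, ← RingHom.map_det]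
    exact hQu.map _
  have := hmF.congr' hQF
  have e : (Q.map (algebraMap K[X] F))ᵀ * A.map (algebraMap K F) * Q.map (algebraMap K[X] F) =
      G.map (algebraMap K[X] F) := by
    have e1 : A.map (algebraMap K F) = (A.map C).map (algebraMap K[X] F) := by
      ext i j; rfl
    rw [e1, ← Matrix.transpose_map, ← Matrix.map_mul, ← Matrix.map_mul, hQ, ← hGAB]
  rwa [e] at this

/-- one step of the linearisation -/
theorem lin_step (h2 : (2 : K) ≠ 0) {ι : Type*} [Fintype ι] [DecidableEq ι] (d : ℕ)
    (G : Matrix ι ι K[X]) (hG : Gᵀ = G) (hd : ∀ i j, (G i j).natDegree ≤ d + 2) :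
    ∃ (G' : Matrix (ι ⊕ (ι ⊕ ι)) (ι ⊕ (ι ⊕ ι)) K[X]) (P : Matrix (ι ⊕ (ι ⊕ ι)) (ι ⊕ (ι ⊕ ι)) K[X]),
      P.det = 1 ∧ G'ᵀ = G' ∧ (∀ i j, (G' i j).natDegree ≤ d + 1) ∧
      Pᵀ * fromBlocks G 0 0 (fromBlocks 0 1 1 0) * P = G' := by
  let T : Matrix ι ι K := Matrix.of fun i j => (G i j).coeff (d + 2)
  have hGe : ∀ i j, G i j = G j i := fun i j => congrFun (congrFun hG j) i
  have hT : Tᵀ = T := by ext i j; simp only [T, transpose_apply, Matrix.of_apply]; rw [hGe]
  let β : Matrix ι ι K[X] := (C (2⁻¹) * X ^ (d + 1) : K[X]) • T.map C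
  let α : Matrix ι ι K[X] := (-X : K[X]) • (1 : Matrix ι ι K[X])
  have hβ : βᵀ = β := by
    simp only [β, transpose_smul, ← transpose_map, hT]
  have hα : αᵀ = α := by simp [α]
  let G0 := G - (X ^ (d + 2) : K[X]) • T.map C
  have hG0 : G0ᵀ = G0 := by
    simp only [G0, transpose_sub, transpose_smul, ← transpose_map, hT, hG]
  have hαβ : α * β + β * α = - (X ^ (d + 2) : K[X]) • T.map C := by
    simp only [α, β, Matrix.smul_mul, Matrix.one_mul, Matrix.mul_smul, Matrix.mul_one, smul_smul,
      ← add_smul]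
    congr 1
    have : C (2⁻¹ : K) * 2 = 1 := by
      rw [← map_ofNat (C : K →+* K[X]) 2, ← C_mul, inv_mul_cancel₀ h2, C_1]
    linear_combination (-X ^ (d + 2)) * this
  refine ⟨fromBlocks G0 (fromCols β α) (fromRows β α) (fromBlocks 0 1 1 0),
    fromBlocks 1 0 (fromRows α β) 1, ?_, ?_, ?_, ?_⟩
  · simp
  · rw [fromBlocks_transpose, hG0]
    congr 1
    · rw [transpose_fromRows, hα, hβ]
    · rw [transpose_fromCols, hα, hβ]
    · rw [fromBlocks_transpose]; simp
  · have hG0d : ∀ i j, (G0 i j).natDegree ≤ d + 1 := by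
      intro i j
      rw [natDegree_le_iff_coeff_eq_zero]
      intro N hN
      simp only [G0, Matrix.sub_apply, Matrix.smul_apply, Matrix.map_apply, smul_eq_mul, coeff_sub,
        coeff_mul_C, coeff_X_pow, T, Matrix.of_apply]
      rcases Nat.lt_or_ge (d + 2) N with h | h
      · rw [coeff_eq_zero_of_natDegree_lt ((hd i j).trans_lt h), if_neg (by omega)]
        simp
      · have : N = d + 2 := by omega
        rw [this]; simp
    have hβd : ∀ i j, (β i j).natDegree ≤ d + 1 := by
      intro i j
      simp only [β, Matrix.smul_apply, Matrix.map_apply, smul_eq_mul]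
      refine (natDegree_mul_C_le _ _).trans ?_
      exact natDegree_C_mul_X_pow_le _ _
    have hαd : ∀ i j, (α i j).natDegree ≤ d + 1 := by
      intro i j
      simp only [α, Matrix.smul_apply, smul_eq_mul, Matrix.one_apply]
      split_ifs
      · rw [mul_one, natDegree_neg]
        exact natDegree_X_le.trans (by omega)
      · simp
    have h1d : ∀ i j : ι, ((1 : Matrix ι ι K[X]) i j).natDegree ≤ d + 1 := by
      intro i j
      rw [Matrix.one_apply]
      split_ifs <;> simp
    rintro (i | i | i) (j | j | j)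
    · exact hG0d i j
    · exact hβd i j
    · exact hαd i j
    · exact hβd i j
    · simp
    · exact h1d i j
    · exact hαd i j
    · exact h1d i j
    · simp
  · rw [fromBlocks_transpose, transpose_fromRows, hα, hβ, fromBlocks_multiply, fromBlocks_multiply,
      transpose_one, transpose_one, transpose_zero]
    simp only [Matrix.one_mul, Matrix.mul_zero, Matrix.zero_mul, add_zero, zero_add, Matrix.mul_one,
      fromCols_mul_fromBlocks, fromBlocks_mul_fromRows, fromCols_mul_fromRows]
    congr 1
    rw [add_comm (β * α), hαβ, neg_smul, ← sub_eq_add_neg]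

/-- **Karoubi**: over a base field where metabolicity is decided by the signed discriminant,
the same holds for unimodular symmetric matrices over `K[X]`. -/
theorem meta_of_unimodular [FaithfulSMul K[X] F] (h2 : (2 : K) ≠ 0)
    (hK : ∀ (m : ℕ) (ι : Type) [Fintype ι] [DecidableEq ι] (A : Matrix ι ι K), Aᵀ = A →
      IsUnit A.det → Fintype.card ι = 2 * m → IsSquare ((-1) ^ m * A.det) → Mtb A) (d : ℕ) :
    ∀ (m : ℕ) (ι : Type) [Fintype ι] [DecidableEq ι] (G : Matrix ι ι K[X]), Gᵀ = G →
      IsUnit G.det → Fintype.card ι = 2 * m → IsSquare ((-1) ^ m * G.det) →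
      (∀ i j, (G i j).natDegree ≤ d + 1) → Mtb (G.map (algebraMap K[X] F)) := by
  induction d with
  | zero =>
    intro m ι _ _ G hG hu hcard hsq hd
    refine meta_linear h2 G hG hu hd fun A hA hAu hAdet => hK m ι A hA hAu hcard ?_
    obtain ⟨r, hr⟩ := hsq
    refine ⟨eval 0 r, ?_⟩
    rw [hAdet, ← eval_mul, ← hr]
    simp
  | succ d ih =>
    intro m ι _ _ G hG hu hcard hsq hd
    obtain ⟨G', P, hP, hG', hd', hPG⟩ := lin_step h2 d G hG hd
    have hdet : G'.det = G.det * (-1) ^ Fintype.card ι := by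
      rw [← hPG, det_mul, det_mul, det_transpose, hP, one_mul, mul_one, det_fromBlocks_zero₂₁,
        det_hyp]
    have hm1 : IsUnit ((-1 : K[X]) ^ Fintype.card ι) := (isUnit_one.neg).pow _
    have hmeta := ih (m + Fintype.card ι) _ G' hG' (by rw [hdet]; exact hu.mul hm1)
      (by rw [Fintype.card_sum, Fintype.card_sum, hcard]; ring) (by
        rw [hdet]
        have : (-1 : K[X]) ^ (m + Fintype.card ι) * (G.det * (-1) ^ Fintype.card ι) =
            (-1) ^ m * G.det := by
          rw [pow_add]
          have h3 : (-1 : K[X]) ^ Fintype.card ι * (-1) ^ Fintype.card ι = 1 := by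
            rw [← mul_pow]; simp
          linear_combination ((-1) ^ m * G.det) * h3
        rw [this]; exact hsq) hd'
    have e : G'.map (algebraMap K[X] F) = (P.map (algebraMap K[X] F))ᵀ *
        fromBlocks (G.map (algebraMap K[X] F)) 0 0 (fromBlocks 0 1 1 0) *
          P.map (algebraMap K[X] F) := by
      rw [← hPG, Matrix.map_mul, Matrix.map_mul, transpose_map, fromBlocks_map, fromBlocks_map]
      simp only [Matrix.map_zero, Matrix.map_one, map_zero, map_one]
    rw [e] at hmeta
    refine (Mtb.of_congr ?_ hmeta).cancel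
    rw [← RingHom.mapMatrix_apply, ← RingHom.map_det, hP, map_one]
    exact isUnit_one

end step

end Pool.Agent.Helper27.PUR
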