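import Pool.Agent.Helper27.PUR.LG
import Pool.Agent.Helper27.PUR.Kar
import Pool.Agent.Helper27.PUR.C1

set_option autoImplicit false
set_option linter.unusedSectionVars false

/-!
# Purity: locally unimodular with square discriminant implies metabolic
-/

namespace Pool.Agent.Helper27.PUR

open Module Matrix Polynomial Submodule

/-- the symmetric matrix `G` over the fraction field `F` of `R` is unimodular at the prime `π`:
there is an integral lattice `Λ` with `s Λ^# ⊆ Λ`, `s` prime to `π` -/
def LocUni {R F : Type*} [CommRing R] [Field F] [Algebra R F] {ι : Type*} [Fintype ι]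
    (G : Matrix ι ι F) (π : R) : Prop :=
  ∃ Λ : Submodule R (ι → F), Λ.FG ∧ span F (Λ : Set (ι → F)) = ⊤ ∧
    (∀ x ∈ Λ, ∀ y ∈ Λ, ∃ r : R, algebraMap R F r = x ⬝ᵥ G *ᵥ y) ∧
    ∃ s : R, ¬ π ∣ s ∧ ∀ v, (∀ x ∈ Λ, ∃ r : R, algebraMap R F r = x ⬝ᵥ G *ᵥ v) → s • v ∈ Λ

section

variable {R F : Type*} [CommRing R] [IsDomain R] [IsPrincipalIdealRing R] [Field F]
  [Algebra R F] [IsFractionRing R F] {ι : Type*} [Fintype ι] [DecidableEq ι]

/-- a locally unimodular form is congruent to a unimodular matrix over `R` -/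
theorem exists_unimodular_matrix (G : Matrix ι ι R) (hG : Gᵀ = G) (hdet : G.det ≠ 0)
    (hloc : ∀ π : R, Irreducible π → LocUni (G.map (algebraMap R F)) π) :
    ∃ (G' : Matrix ι ι R) (P : Matrix ι ι F), G'ᵀ = G' ∧ IsUnit G'.det ∧ IsUnit P.det ∧
      Pᵀ * G.map (algebraMap R F) * P = G'.map (algebraMap R F) := by
  set GF := G.map (algebraMap R F) with hGF
  have hGFs : GFᵀ = GF := by rw [hGF, ← transpose_map, hG]
  have hGFd : GF.det ≠ 0 := by
    rw [hGF, ← RingHom.mapMatrix_apply, ← RingHom.map_det]
    simpa using (IsFractionRing.injective R F).ne hdet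
  let B : LinearMap.BilinForm F (ι → F) := Matrix.toBilin' GF
  have hB : ∀ x y, B x y = x ⬝ᵥ GF *ᵥ y := fun x y => by
    simp only [B, toBilin'_apply']
  have hBn : B.Nondegenerate :=
    LinearMap.BilinForm.nondegenerate_toBilin'_iff_det_ne_zero.mpr hGFd
  have hBs : B.IsSymm := Matrix.isSymm_toBilin'_iff_isSymm.mpr hGFs
  let L0 : Submodule R (ι → F) := span R (Set.range (Pi.basisFun F ι))
  have hL0 : IsLattice F L0 := lattice_of_basis _
  have hL0i : L0 ≤ B.dualSubmodule L0 := by
    rw [show L0 = span R (Set.range (Pi.basisFun F ι)) from rfl, span_le]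
    rintro _ ⟨i, rfl⟩ y hy
    induction hy using span_induction with
    | mem y hy =>
      obtain ⟨j, rfl⟩ := hy
      rw [mem_one, hB]
      refine ⟨G i j, ?_⟩
      simp [hGF]
    | zero => rw [map_zero]; exact zero_mem _
    | add x y _ _ hx hy => rw [map_add]; exact add_mem hx hy
    | smul c x _ hx => rw [LinearMap.map_smul_of_tower]; exact smul_mem _ _ hx
  obtain ⟨L, hL, hLd⟩ := exists_unimodular B hBn hBs L0 hL0i (by
    intro π hπ
    obtain ⟨Λ, h1, h2, h3, s, hs, h4⟩ := hloc π hπ
    refine ⟨Λ, ⟨h1, h2⟩, ?_, s, hs, ?_⟩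
    · intro x hx y hy
      rw [mem_one, hB]
      exact h3 x hx y hy
    · intro v hv
      refine h4 v fun x hx => ?_
      have := hv x hx
      rw [mem_one, hB, dot_symm GF hGFs] at this
      exact this)
  obtain ⟨b0, hb0⟩ := exists_basis_of_lattice (F := F) L
  have hfr : Fintype.card (Fin (finrank F (ι → F))) = Fintype.card ι := by
    rw [Fintype.card_fin, finrank_fintype_fun_eq_card]
  let b : Basis ι F (ι → F) := b0.reindex (Fintype.equivOfCardEq hfr)
  have hb : L = span R (Set.range b) := by rw [hb0, Basis.range_reindex]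
  have hbL : ∀ i, b i ∈ L := fun i => by rw [hb]; exact subset_span ⟨i, rfl⟩
  have hint : ∀ i j, ∃ r : R, algebraMap R F r = b i ⬝ᵥ GF *ᵥ b j := by
    intro i j
    have h1 : b i ∈ B.dualSubmodule L := by rw [hLd]; exact hbL i
    have h2 := h1 (b j) (hbL j)
    rwa [mem_one, hB] at h2
  choose g hg using hint
  let G' : Matrix ι ι R := Matrix.of g
  have hG'e : ∀ i j, G' i j = g i j := fun _ _ => rfl
  let P : Matrix ι ι F := (Matrix.of fun i => b i)ᵀ
  have hPG : Pᵀ * GF * P = G'.map (algebraMap R F) := by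
    ext i j
    rw [Matrix.map_apply, hG'e, hg, Matrix.mul_assoc]
    rfl
  have hinj := IsFractionRing.injective R F
  have hG's : G'ᵀ = G' := by
    ext i j
    apply hinj
    rw [transpose_apply, hG'e, hG'e, hg, hg, dot_symm GF hGFs]
  have hPu : IsUnit P.det := by
    have h1 : P = (Pi.basisFun F ι).toMatrix b := by
      ext i j
      simp [P, Basis.toMatrix_apply]
    rw [h1]
    have h2 := (Pi.basisFun F ι).toMatrix_mul_toMatrix_flip b
    have h3 := congrArg det h2
    rw [det_mul, det_one] at h3
    exact IsUnit.of_mul_eq_one _ h3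
  -- the dual basis lies in `L`
  let δ := B.dualBasis hBn b
  have hδL : ∀ i, δ i ∈ L := by
    intro i
    rw [← hLd]
    intro y hy
    rw [hb] at hy
    induction hy using span_induction with
    | mem y hy =>
      obtain ⟨j, rfl⟩ := hy
      rw [mem_one]
      refine ⟨if j = i then 1 else 0, ?_⟩
      rw [LinearMap.BilinForm.apply_dualBasis_left]
      split_ifs <;> simp_all
    | zero => rw [map_zero]; exact zero_mem _
    | add x y _ _ hx hy => rw [map_add]; exact add_mem hx hy
    | smul c x _ hx => rw [LinearMap.map_smul_of_tower]; exact smul_mem _ _ hx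
  have hδc : ∀ i, ∃ c : ι → R, ∑ k, c k • b k = δ i := by
    intro i
    have := hδL i
    rw [hb] at this
    exact (mem_span_range_iff_exists_fun R).mp this
  choose c hc using hδc
  have hcG : Matrix.of c * G' = 1 := by
    ext i j
    apply hinj
    rw [Matrix.mul_apply, map_sum]
    have h1 : B (δ i) (b j) = if j = i then 1 else 0 :=
      LinearMap.BilinForm.apply_dualBasis_left hBn b i j
    rw [← hc i, map_sum, LinearMap.sum_apply] at h1
    have h2 : ∀ k, B (c i k • b k) (b j) = algebraMap R F (c i k * g k j) := by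
      intro k
      rw [LinearMap.map_smul_of_tower, LinearMap.smul_apply, hB, map_mul, hg, Algebra.smul_def]
    simp only [h2] at h1
    simp only [Matrix.of_apply, hG'e]
    rw [h1, Matrix.one_apply]
    by_cases h : i = j
    · rw [if_pos h, if_pos h.symm, map_one]
    · rw [if_neg h, if_neg (fun h' => h h'.symm), map_zero]
  refine ⟨G', P, hG's, ?_, hPu, hPG⟩
  have h3 := congrArg det hcG
  rw [det_mul, det_one] at h3
  exact IsUnit.of_mul_eq_one_right _ h3

end

section

variable {K : Type*} [Field K] {F : Type*} [Field F] [Algebra K[X] F] [IsFractionRing K[X] F]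

/-- an element of `R` which is a square in the fraction field is a square in `R` -/
theorem isSquare_of_map {R : Type*} [CommRing R] [IsDomain R] [IsIntegrallyClosed R] {F : Type*}
    [Field F] [Algebra R F] [IsFractionRing R F] (r : R) (h : IsSquare (algebraMap R F r)) :
    IsSquare r := by
  obtain ⟨f, hf⟩ := h
  have hint : IsIntegral R (f ^ 2) := by
    rw [sq, ← hf]; exact isIntegral_algebraMap
  obtain ⟨g, rfl⟩ := IsIntegrallyClosed.exists_algebraMap_eq_of_isIntegral_pow (by norm_num) hint
  refine ⟨g, ?_⟩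
  apply IsFractionRing.injective R F
  rw [hf, map_mul]

/-- **Purity.** Over `K[X]`, where ternary forms over `K` are isotropic, a symmetric matrix of even
size with square signed discriminant which is unimodular at every prime is metabolic over the
fraction field. -/
theorem meta_of_locUni (h2 : (2 : K) ≠ 0) (hT : Tern K) {ι : Type} [Fintype ι] [DecidableEq ι]
    (m : ℕ) (hcard : Fintype.card ι = 2 * m) (G : Matrix ι ι K[X]) (hG : Gᵀ = G) (hdet : G.det ≠ 0)
    (hsq : IsSquare ((-1) ^ m * G.det))
    (hloc : ∀ π : K[X], Irreducible π → LocUni (G.map (algebraMap K[X] F)) π) :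
    Mtb (G.map (algebraMap K[X] F)) := by
  obtain ⟨G', P, hG', hG'u, hPu, hPG⟩ := exists_unimodular_matrix G hG hdet hloc
  refine Mtb.of_congr hPu ?_
  rw [hPG]
  let D := Finset.univ.sup fun ij : ι × ι => (G' ij.1 ij.2).natDegree
  refine meta_of_unimodular h2 (fun m ι _ _ A h1 h3 h4 h5 => meta_of_disc h2 hT m ι A h1 h3 h4 h5)
    D m ι G' hG' hG'u hcard ?_ ?_
  · apply isSquare_of_map (F := F)
    have h1 := congrArg det hPG
    rw [det_mul, det_mul, det_transpose, ← RingHom.mapMatrix_apply, ← RingHom.mapMatrix_apply,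
      ← RingHom.map_det, ← RingHom.map_det] at h1
    obtain ⟨r, hr⟩ := hsq
    refine ⟨algebraMap K[X] F r * P.det, ?_⟩
    have h3 := congrArg (algebraMap K[X] F) hr
    rw [map_mul, map_mul] at h3
    rw [map_mul, ← h1]
    linear_combination P.det ^ 2 * h3
  · intro i j
    have := Finset.le_sup (f := fun ij : ι × ι => (G' ij.1 ij.2).natDegree) (Finset.mem_univ (i, j))
    exact this.trans (Nat.le_succ _)

end

end Pool.Agent.Helper27.PUR
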