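import Pool.Agent.Helper29.HP.St.Tsen
import Pool.Agent.Helper27.PUR.Glob

set_option autoImplicit false
set_option linter.unusedSectionVars false

/-!
# The form `N - μ M` over `C(x, y)`
-/

namespace Pool.Agent.Helper27.PUR

open Module Matrix Polynomial Submodule Pool.Agent.Helper29.HP

theorem isSquare_neg_one : IsSquare (-1 : AA) := by
  refine ⟨C (algebraMap (Polynomial ℂ) kx (C Complex.I)), ?_⟩
  rw [← C_mul, ← map_mul, ← C_mul, Complex.I_mul_I]
  simp

theorem det_block {R : Type*} [CommRing R] (N : Matrix (Fin 4) (Fin 4) R)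
    (M : Matrix (Fin 6) (Fin 6) R) (μ : R) :
    (fromBlocks N 0 0 (-(μ • M))).det = N.det * (μ ^ 6 * M.det) := by
  rw [det_fromBlocks_zero₂₁, det_neg, det_smul, Fintype.card_fin]
  ring

theorem isSquare_aux {R : Type*} [CommRing R] (h : IsSquare (-1 : R)) (δ μ : R) :
    IsSquare ((-1) ^ 5 * (δ * (μ ^ 6 * δ))) := by
  obtain ⟨r, hr⟩ := h
  refine ⟨r * δ * μ ^ 3, ?_⟩
  linear_combination (δ ^ 2 * μ ^ 6) * hr

theorem symm_aux {R : Type*} [CommRing R] (N : Matrix (Fin 4) (Fin 4) R)
    (M : Matrix (Fin 6) (Fin 6) R) (hN : N.IsSymm) (hM : M.IsSymm) (μ : R) :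
    (fromBlocks N 0 0 (-(μ • M)))ᵀ = fromBlocks N 0 0 (-(μ • M)) := by
  rw [fromBlocks_transpose, transpose_neg, transpose_smul, hN.eq, hM.eq, transpose_zero,
    transpose_zero]

section

variable {R F : Type*} [CommRing R] [IsDomain R] [Field F] [Algebra R F] [IsFractionRing R F]

/-- five independent integral vectors in a totally isotropic subspace -/
theorem vectors_of_meta (N : Matrix (Fin 4) (Fin 4) R) (M : Matrix (Fin 6) (Fin 6) R) (μ : R)
    (h : Mtb ((fromBlocks N 0 0 (-(μ • M))).map (algebraMap R F))) :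
    ∃ (u : Fin 5 → Fin 4 → R) (v : Fin 5 → Fin 6 → R),
      LinearIndependent R (fun a => (u a, v a)) ∧
      ∀ a b, u a ⬝ᵥ N.mulVec (u b) = μ * (v a ⬝ᵥ M.mulVec (v b)) := by
  set G := fromBlocks N 0 0 (-(μ • M)) with hG
  obtain ⟨L, hL1, hL2⟩ := h
  -- five independent vectors
  have h5 : 5 ≤ finrank F L := by
    simp only [Fintype.card_sum, Fintype.card_fin] at hL1
    omega
  let b := finBasis F L
  let w : Fin 5 → (Fin 4 ⊕ Fin 6 → F) := fun a => (b (Fin.castLE h5 a) : Fin 4 ⊕ Fin 6 → F)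
  have hw : LinearIndependent F w := by
    have h1 := (b.linearIndependent.comp (Fin.castLE h5) (Fin.castLE_injective h5)).map' L.subtype
      (ker_subtype L)
    exact h1
  have hwL : ∀ a, w a ∈ L := fun a => (b (Fin.castLE h5 a)).2
  -- clear denominators
  have hden : ∀ a, ∃ (d : R) (x : Fin 4 ⊕ Fin 6 → R), d ≠ 0 ∧
      ∀ i, algebraMap R F (x i) = algebraMap R F d * w a i := by
    intro a
    obtain ⟨d, hd⟩ := IsLocalization.exist_integer_multiples_of_finite (nonZeroDivisors R) (w a)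
    choose x hx using hd
    refine ⟨d, x, nonZeroDivisors.coe_ne_zero d, fun i => ?_⟩
    rw [hx i, Algebra.smul_def]
  choose d x hd hx using hden
  have hinj := IsFractionRing.injective R F
  refine ⟨fun a i => x a (Sum.inl i), fun a i => x a (Sum.inr i), ?_, ?_⟩
  · rw [Fintype.linearIndependent_iff]
    intro c hc
    rw [Fintype.linearIndependent_iff] at hw
    have h1 : ∀ j : Fin 4 ⊕ Fin 6, ∑ a, c a * x a j = 0 := by
      intro j
      have e1 := congrArg Prod.fst hc
      have e2 := congrArg Prod.snd hc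
      rcases j with j | j
      · have := congrFun e1 j
        simpa [Prod.fst_sum, Finset.sum_apply] using this
      · have := congrFun e2 j
        simpa [Prod.snd_sum, Finset.sum_apply] using this
    have h3 := hw (fun a => algebraMap R F (c a * d a)) (by
      ext j
      have := congrArg (algebraMap R F) (h1 j)
      rw [map_sum, map_zero] at this
      rw [Finset.sum_apply, Pi.zero_apply, ← this]
      refine Finset.sum_congr rfl fun a _ => ?_
      rw [Pi.smul_apply, smul_eq_mul, map_mul, map_mul, hx]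
      ring)
    intro a
    have h4 := h3 a
    rw [map_eq_zero_iff _ hinj] at h4
    exact (mul_eq_zero.mp h4).resolve_right (hd a)
  · intro a b'
    have h1 : (fun i => algebraMap R F (x a i)) ⬝ᵥ (G.map (algebraMap R F)) *ᵥ
        (fun i => algebraMap R F (x b' i)) = 0 := by
      have e1 : (fun i => algebraMap R F (x a i)) = algebraMap R F (d a) • w a := by
        ext i; rw [hx]; rfl
      have e2 : (fun i => algebraMap R F (x b' i)) = algebraMap R F (d b') • w b' := by
        ext i; rw [hx]; rfl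
      rw [e1, e2, mulVec_smul, smul_dotProduct, dotProduct_smul, hL2 _ (hwL a) _ (hwL b')]
      simp
    have h3 : algebraMap R F (x a ⬝ᵥ G *ᵥ x b') = 0 := by
      rw [← h1, RingHom.map_dotProduct]
      congr 1
      ext i
      exact RingHom.map_mulVec (algebraMap R F) G _ i
    rw [map_eq_zero_iff _ hinj] at h3
    have e3 : ∀ a, x a = Sum.elim (fun i => x a (Sum.inl i)) (fun i => x a (Sum.inr i)) := by
      intro a; ext i; rcases i with i | i <;> rfl
    rw [e3 a, e3 b', hG, fromBlocks_mulVec] at h3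
    simp only [Sum.elim_comp_inl, Sum.elim_comp_inr, sumElim_dotProduct_sumElim, zero_mulVec,
      add_zero, zero_add, neg_mulVec, smul_mulVec, dotProduct_neg, dotProduct_smul,
      smul_eq_mul] at h3
    exact add_neg_eq_zero.mp h3

end

theorem meta_aux {K F : Type*} [Field K] [Field F] [Algebra K[X] F] [IsFractionRing K[X] F]
    (h2 : (2 : K) ≠ 0) (hT : Tern K) (hsq : IsSquare (-1 : K[X]))
    (N : Matrix (Fin 4) (Fin 4) K[X]) (M : Matrix (Fin 6) (Fin 6) K[X])
    (hN : N.IsSymm) (hM : M.IsSymm) (δ μ : K[X]) (hδ : δ ≠ 0) (hdN : N.det = δ) (hdM : M.det = δ)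
    (hμ : μ ≠ 0)
    (hloc : ∀ π : K[X], Irreducible π →
      LocUni ((fromBlocks N 0 0 (-(μ • M))).map (algebraMap K[X] F)) π) :
    ∃ (u : Fin 5 → Fin 4 → K[X]) (v : Fin 5 → Fin 6 → K[X]),
      LinearIndependent K[X] (fun a => (u a, v a)) ∧
      ∀ a b, u a ⬝ᵥ N.mulVec (u b) = μ * (v a ⬝ᵥ M.mulVec (v b)) := by
  apply vectors_of_meta (F := F)
  have hGd := det_block N M μ
  refine meta_of_locUni (F := F) h2 hT 5 (by simp) _ (symm_aux N M hN hM μ) ?_ ?_ hloc
  · rw [hGd, hdN, hdM]
    exact mul_ne_zero hδ (mul_ne_zero (pow_ne_zero 6 hμ) hδ)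
  · rw [hGd, hdN, hdM]
    exact isSquare_aux hsq δ μ

theorem purity_of_loc (N : Matrix (Fin 4) (Fin 4) AA) (M : Matrix (Fin 6) (Fin 6) AA)
    (hN : N.IsSymm) (hM : M.IsSymm) (δ μ : AA) (hδ : δ ≠ 0) (hdN : N.det = δ) (hdM : M.det = δ)
    (hμ : μ ≠ 0)
    (hloc : ∀ π : AA, Irreducible π →
      LocUni ((fromBlocks N 0 0 (-(μ • M))).map (algebraMap AA KK)) π) :
    ∃ (u : Fin 5 → Fin 4 → AA) (v : Fin 5 → Fin 6 → AA),
      LinearIndependent AA (fun a => (u a, v a)) ∧
      ∀ a b, u a ⬝ᵥ N.mulVec (u b) = μ * (v a ⬝ᵥ M.mulVec (v b)) :=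
  meta_aux (F := KK) two_ne_zero tern_kx isSquare_neg_one N M hN hM δ μ hδ hdN hdM hμ hloc

end Pool.Agent.Helper27.PUR
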