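import Mathlib

set_option autoImplicit false
set_option linter.unusedSectionVars false

/-!
# Local to global: unimodular lattices over a principal ideal domain

`R` is a principal ideal domain with fraction field `F` and `B` a nondegenerate symmetric bilinear
form on an `F`-space `V` of finite dimension. If for every prime `π` of `R` there is an integral
lattice `L` which is unimodular at `π` (`s L^# ⊆ L` for some `s` prime to `π`), then `V` contains
a unimodular lattice.
-/

namespace Pool.Agent.Helper27.PUR

open Module Submodule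

section LG

variable {R F V : Type*} [CommRing R] [IsDomain R] [IsPrincipalIdealRing R] [Field F]
  [Algebra R F] [IsFractionRing R F] [AddCommGroup V] [Module R V] [Module F V]
  [IsScalarTower R F V] [FiniteDimensional F V]

/-- a lattice is spanned by a basis of the space -/
theorem exists_basis_of_lattice (L : Submodule R V) [hL : IsLattice F L] :
    ∃ b : Basis (Fin (finrank F V)) F V, L = span R (Set.range b) := by
  have : Module.IsTorsionFree R F := inferInstance
  let b := Module.Free.chooseBasis R L
  let b' := b.extendOfIsLattice F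
  have hcard : Fintype.card (Module.Free.ChooseBasisIndex R L) = finrank F V :=
    (finrank_eq_card_basis b').symm
  let e : Module.Free.ChooseBasisIndex R L ≃ Fin (finrank F V) := Fintype.equivFinOfCardEq hcard
  refine ⟨b'.reindex e, ?_⟩
  have h1 : Set.range (b'.reindex e) = L.subtype '' Set.range b := by
    rw [Basis.range_reindex]
    ext x
    constructor
    · rintro ⟨i, rfl⟩
      exact ⟨b i, ⟨i, rfl⟩, by simp [b']⟩
    · rintro ⟨_, ⟨i, rfl⟩, rfl⟩
      exact ⟨i, by simp [b']⟩
  rw [h1, span_image, b.span_eq, Submodule.map_top, range_subtype]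

theorem lattice_of_basis {ι : Type*} [Finite ι] (b : Basis ι F V) :
    IsLattice F (span R (Set.range b)) :=
  ⟨fg_span (Set.finite_range b), by rw [span_span_of_tower, b.span_eq]⟩

variable (B : LinearMap.BilinForm F V)

theorem dual_lattice (hB : B.Nondegenerate) (L : Submodule R V) [hL : IsLattice F L] :
    IsLattice F (B.dualSubmodule L) := by
  classical
  obtain ⟨b, rfl⟩ := exists_basis_of_lattice (F := F) L
  rw [LinearMap.BilinForm.dualSubmodule_span_of_basis B hB]
  exact lattice_of_basis _

theorem dual_dual (hB : B.Nondegenerate) (hS : B.IsSymm) (L : Submodule R V)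
    [hL : IsLattice F L] : B.dualSubmodule (B.dualSubmodule L) = L := by
  classical
  obtain ⟨b, rfl⟩ := exists_basis_of_lattice (F := F) L
  exact LinearMap.BilinForm.dualSubmodule_dualSubmodule_of_basis B hB hS b

omit [IsDomain R] [IsPrincipalIdealRing R] [IsFractionRing R F] [FiniteDimensional F V] in
theorem dual_anti {L L' : Submodule R V} (h : L ≤ L') :
    B.dualSubmodule L' ≤ B.dualSubmodule L := fun _ hx y hy => hx y (h hy)

omit [IsDomain R] [IsPrincipalIdealRing R] [IsFractionRing R F] [FiniteDimensional F V] in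
theorem dual_sup (L L' : Submodule R V) :
    B.dualSubmodule (L ⊔ L') = B.dualSubmodule L ⊓ B.dualSubmodule L' := by
  apply le_antisymm
  · exact le_inf (dual_anti B le_sup_left) (dual_anti B le_sup_right)
  · rintro x ⟨h1, h2⟩ y hy
    obtain ⟨a, ha, c, hc, rfl⟩ := mem_sup.mp hy
    rw [map_add]
    exact add_mem (h1 a ha) (h2 c hc)

/-- the integral lattices above a given one have a maximal element -/
theorem exists_maximal (hB : B.Nondegenerate) (hS : B.IsSymm) (L0 : Submodule R V)
    [hL : IsLattice F L0] (h0 : L0 ≤ B.dualSubmodule L0) :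
    ∃ L : Submodule R V, IsLattice F L ∧ L ≤ B.dualSubmodule L ∧
      ∀ L' : Submodule R V, L ≤ L' → L' ≤ B.dualSubmodule L' → L' ≤ L := by
  have hD := dual_lattice B hB L0
  set D := B.dualSubmodule L0 with hDdef
  have hbound : ∀ L' : Submodule R V, L0 ≤ L' → L' ≤ B.dualSubmodule L' → L' ≤ D :=
    fun L' h1 h2 => h2.trans (dual_anti B h1)
  have : IsNoetherian R D := inferInstance
  let S : Set (Submodule R D) :=
    {N | L0 ≤ N.map D.subtype ∧ N.map D.subtype ≤ B.dualSubmodule (N.map D.subtype)}
  have hS0 : (L0.comap D.subtype) ∈ S := by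
    have : (L0.comap D.subtype).map D.subtype = L0 := by
      rw [map_comap_subtype, inf_eq_right.mpr h0]
    exact ⟨by rw [this], by rw [this]; exact h0⟩
  obtain ⟨N, hNS, hN⟩ := set_has_maximal_iff_noetherian.mpr this S ⟨_, hS0⟩
  refine ⟨N.map D.subtype, ?_, hNS.2, ?_⟩
  · refine IsLattice.of_le_of_isLattice_of_fg F hNS.1 ?_
    exact (IsNoetherian.noetherian N).map _
  · intro L' h1 h2
    have hLD : L' ≤ D := hbound L' (hNS.1.trans h1) h2
    have hmc : (L'.comap D.subtype).map D.subtype = L' := by
      rw [map_comap_subtype, inf_eq_right.mpr hLD]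
    have hmem : (L'.comap D.subtype) ∈ S :=
      ⟨by rw [hmc]; exact hNS.1.trans h1, by rw [hmc]; exact h2⟩
    have hle : N ≤ L'.comap D.subtype := map_le_iff_le_comap.mp h1
    have hnlt := hN _ hmem
    have heq : N = L'.comap D.subtype := by
      by_contra hne
      exact hnlt (lt_of_le_of_ne hle hne)
    rw [heq, hmc]

/-- the key step at one prime -/
theorem mem_of_maximal (hB : B.Nondegenerate) (hS : B.IsSymm) (L L1 : Submodule R V)
    [hL : IsLattice F L] [hL1 : IsLattice F L1] (hint : L ≤ B.dualSubmodule L)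
    (hmax : ∀ L' : Submodule R V, L ≤ L' → L' ≤ B.dualSubmodule L' → L' ≤ L)
    (hint1 : L1 ≤ B.dualSubmodule L1) (s : R) (hs : ∀ v ∈ B.dualSubmodule L1, s • v ∈ L1)
    (v : V) (hv : v ∈ B.dualSubmodule L) : s • v ∈ L := by
  have hD1 := dual_lattice B hB L1
  set A := L1 ⊓ B.dualSubmodule L with hA
  have hsym : ∀ x y : V, B x y = B y x := fun x y => hS.eq x y
  have hAL : A ≤ L := by
    refine le_sup_right.trans (hmax (L ⊔ A) le_sup_left ?_)
    rw [dual_sup]
    refine sup_le (le_inf hint ?_) (le_inf inf_le_right ?_)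
    · intro x hx y hy
      rw [hsym]
      exact hy.2 x hx
    · intro x hx y hy
      exact hint1 hx.1 y hy.1
  have hAd : B.dualSubmodule A = B.dualSubmodule L1 ⊔ L := by
    have h1 : B.dualSubmodule (B.dualSubmodule L1 ⊔ L) = A := by
      rw [dual_sup, dual_dual B hB hS]
    rw [← h1]
    exact dual_dual B hB hS _
  have hvA : v ∈ B.dualSubmodule A := dual_anti B hAL hv
  rw [hAd] at hvA
  obtain ⟨a, ha, l, hl, rfl⟩ := mem_sup.mp hvA
  have hsa : s • a ∈ L1 := hs a ha
  have hsa' : s • a ∈ B.dualSubmodule L := by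
    apply smul_mem
    have : a = (a + l) - l := by abel
    rw [this]
    exact sub_mem hv (hint hl)
  rw [smul_add]
  exact add_mem (hAL ⟨hsa, hsa'⟩) (smul_mem _ _ hl)

omit [IsPrincipalIdealRing R] in
/-- every vector has a nonzero multiple in a lattice -/
theorem exists_smul_mem (L : Submodule R V) [hL : IsLattice F L] (v : V) :
    ∃ r : R, r ≠ 0 ∧ r • v ∈ L := by
  have hv : v ∈ span F (L : Set V) := by rw [hL.span_eq_top]; trivial
  induction hv using span_induction with
  | mem x h => exact ⟨1, one_ne_zero, by simpa using h⟩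
  | zero => exact ⟨1, one_ne_zero, by simp⟩
  | add x y _ _ hx hy =>
    obtain ⟨r, hr, hrx⟩ := hx
    obtain ⟨t, ht, hty⟩ := hy
    refine ⟨r * t, mul_ne_zero hr ht, ?_⟩
    rw [smul_add]
    refine add_mem ?_ ?_
    · rw [mul_comm, mul_smul]; exact smul_mem _ _ hrx
    · rw [mul_smul]; exact smul_mem _ _ hty
  | smul a x _ hx =>
    obtain ⟨r, hr, hrx⟩ := hx
    obtain ⟨p, q, hq, rfl⟩ := IsFractionRing.div_surjective (A := R) a
    have hq0 : q ≠ 0 := nonZeroDivisors.ne_zero hq
    refine ⟨q * r, mul_ne_zero hq0 hr, ?_⟩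
    have hq1 : algebraMap R F q ≠ 0 := by
      simpa using (IsFractionRing.injective R F).ne hq0
    have : (q * r) • (algebraMap R F p / algebraMap R F q) • x = p • (r • x) := by
      rw [← algebraMap_smul F (q * r), ← algebraMap_smul F p, ← algebraMap_smul F r, smul_smul,
        smul_smul, map_mul]
      congr 1
      field_simp
    rw [this]
    exact smul_mem _ _ hrx

/-- **Local to global.** -/
theorem exists_unimodular (hB : B.Nondegenerate) (hS : B.IsSymm) (L0 : Submodule R V)
    [hL : IsLattice F L0] (h0 : L0 ≤ B.dualSubmodule L0)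
    (hloc : ∀ π : R, Irreducible π → ∃ L1 : Submodule R V, IsLattice F L1 ∧
      L1 ≤ B.dualSubmodule L1 ∧ ∃ s : R, ¬ π ∣ s ∧ ∀ v ∈ B.dualSubmodule L1, s • v ∈ L1) :
    ∃ L : Submodule R V, IsLattice F L ∧ B.dualSubmodule L = L := by
  obtain ⟨L, hL, hint, hmax⟩ := exists_maximal B hB hS L0 h0
  refine ⟨L, hL, le_antisymm ?_ hint⟩
  intro v hv
  -- the ideal of multipliers
  let I : Ideal R := { carrier := {r | r • v ∈ L}
                       add_mem' := fun {a b} ha hb => by
                        simp only [Set.mem_ofPred_eq, add_smul] at *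
                        exact add_mem ha hb
                       zero_mem' := by simp
                       smul_mem' := fun c x hx => by
                        simp only [Set.mem_ofPred_eq, smul_eq_mul, mul_smul] at *
                        exact smul_mem _ _ hx }
  have hI : ∀ r, r ∈ I ↔ r • v ∈ L := fun r => Iff.rfl
  obtain ⟨d, hd⟩ := IsPrincipalIdealRing.principal I
  have hd' : ∀ r, r ∈ I ↔ d ∣ r := by
    intro r; rw [hd]; exact Ideal.mem_span_singleton
  have hd0 : d ≠ 0 := by
    rintro rfl
    obtain ⟨r, hr, hrv⟩ := exists_smul_mem (F := F) L v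
    exact hr (zero_dvd_iff.mp ((hd' r).mp ((hI r).mpr hrv)))
  by_cases hu : IsUnit d
  · have : (1 : R) ∈ I := (hd' 1).mpr (hu.dvd)
    simpa using (hI 1).mp this
  · exfalso
    obtain ⟨π, hπ, c, rfl⟩ := WfDvdMonoid.exists_irreducible_factor hu hd0
    obtain ⟨L1, hL1, hint1, s, hs, hsL⟩ := hloc π hπ
    have h1 : s • v ∈ L := mem_of_maximal B hB hS L L1 hint hmax hint1 s hsL v hv
    have h2 : π * c ∣ s := (hd' s).mp ((hI s).mpr h1)
    exact hs ((Dvd.intro c rfl).trans h2)

end LG

end Pool.Agent.Helper27.PUR
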